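import Pool.Agent.Lib.MP_ee7726_lc.SB.Two

/-! A moment form of the multi-switching lemma. -/

namespace Pool.Agent.Lib.MP_ee7726_lc.SB

open Finset

variable {ι : Type} [Fintype ι] [DecidableEq ι]

/-- `y` on `R`, `x` off `R` -/
def mg (R : Finset ι) (y x : ι → Bool) : ι → Bool := fun v => if v ∈ R then y v else x v

/-- the uniform mean -/
noncomputable def Ex (F : (ι → Bool) → ℝ) : ℝ := ∑ x, unif x * F x

lemma Ex_mono {F G : (ι → Bool) → ℝ} (h : ∀ x, F x ≤ G x) : Ex F ≤ Ex G :=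
  sum_le_sum fun x _ => mul_le_mul_of_nonneg_left (h x) (unif_pos x).le

lemma Ex_const (c : ℝ) : Ex (fun _ : ι → Bool => c) = c := by
  rw [Ex, ← sum_mul, (biased_unif (ι := ι) 0).total, one_mul]

lemma Ex_nonneg {F : (ι → Bool) → ℝ} (h : ∀ x, 0 ≤ F x) : 0 ≤ Ex F :=
  (Ex_const 0).symm.trans_le (Ex_mono h)

lemma Ex_mul (c : ℝ) (F : (ι → Bool) → ℝ) : Ex (fun x => c * F x) = c * Ex F := by
  simp only [Ex, mul_sum, mul_left_comm]

lemma Ex_sum {α : Type} (s : Finset α) (F : α → (ι → Bool) → ℝ) :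
    Ex (fun x => ∑ i ∈ s, F i x) = ∑ i ∈ s, Ex (F i) := by
  simp only [Ex, mul_sum]; rw [sum_comm]

lemma Ex_mg (L : Finset ι) (F : (ι → Bool) → ℝ) :
    Ex (fun x => Ex fun y => F (mg L y x)) = Ex F := by
  let e : (ι → Bool) × (ι → Bool) → (ι → Bool) × (ι → Bool) := fun q => (mg L q.2 q.1, mg L q.1 q.2)
  have he : Function.Involutive e := fun q => by
    ext v <;> simp only [e, mg] <;> split_ifs <;> rfl
  have h := he.bijective.sum_comp fun q => unif q.1 * (unif q.2 * F q.1)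
  simp only [Fintype.sum_prod_type, ← mul_sum, ← sum_mul, (biased_unif (ι := ι) 0).total,
    one_mul] at h
  rw [Ex, Ex, ← h]
  simp only [Ex, unif, e, mul_sum]

/-- the law of a random set of density `p` -/
noncomputable def om (p : ℝ) (R : Finset ι) : ℝ := ∏ v, if v ∈ R then p else 1 - p

lemma sum_prod_ite (f g : ι → ℝ) :
    ∑ R : Finset ι, ∏ v, (if v ∈ R then f v else g v) = ∏ v, (f v + g v) := by
  rw [Fintype.prod_add]
  refine sum_congr rfl fun R _ => ?_
  rw [prod_ite]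
  congr 2 <;> ext <;> simp

lemma sum_om (p : ℝ) : ∑ R : Finset ι, om p R = 1 := by
  simp only [om]; rw [sum_prod_ite]; simp

lemma om_nonneg {p : ℝ} (h0 : 0 ≤ p) (h1 : p ≤ 1) (R : Finset ι) : 0 ≤ om p R :=
  prod_nonneg fun v _ => by split_ifs <;> linarith

lemma om_le {p : ℝ} (h0 : 0 ≤ p) (h1 : p ≤ 1 / 2) (R L : Finset ι) (h : L ⊆ R) :
    om p R ≤ om p (R \ L) * (2 * p) ^ L.card := by
  rw [om, om, ← prod_const, ← univ_inter L, ← prod_ite_mem, univ_inter, ← prod_mul_distrib]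
  refine prod_le_prod (fun v _ => by split_ifs <;> linarith) fun v _ => ?_
  by_cases h2 : v ∈ L
  · simp only [h h2, mem_sdiff, h2, not_true, and_false, if_true, if_false]; nlinarith
  · simp [h2]

section path

variable {κ : Type} [Fintype κ] [LinearOrder κ]

/-- the canonical process with free set `R` at the point `π` reads `L` -/
inductive Pth (I : κ → Finset ι) (a : κ → ι → Bool) (π : ι → Bool) : Finset ι → Finset ι → Prop
  | nil (R : Finset ι) : Pth I a π R ∅
  | cons (R L : Finset ι) (j : κ) : Fu I a R j π → (I j ∩ R).Nonempty →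
      Pth I a π (R \ (I j ∩ R)) L → Pth I a π R (I j ∩ R ∪ L)

variable {I : κ → Finset ι} {a : κ → ι → Bool} {π : ι → Bool}

omit [Fintype ι] [Fintype κ] in
lemma Pth.subset {R L : Finset ι} (h : Pth I a π R L) : L ⊆ R := by
  induction h with
  | nil => exact empty_subset _
  | cons R L j _ _ _ ih => exact union_subset inter_subset_right (ih.trans sdiff_subset)

omit [Fintype ι] [Fintype κ] in
lemma Pth.ev {R L : Finset ι} (h : Pth I a π R L) {R' : Finset ι} (hR : R' ⊆ R \ L)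
    {π' : ι → Bool} (hπ : ∀ v, v ∉ R \ L → π' v = π v) : Ev (fun j => I j \ R') a L π' := by
  induction h with
  | nil => exact ⟨π', fun _ _ => rfl, Dec.base π'⟩
  | cons R L j hj hne hP ih =>
    have hL := hP.subset
    have hd : Disjoint (I j ∩ R) L := disjoint_sdiff.mono_right hL
    have e1 : R \ (I j ∩ R ∪ L) = (R \ (I j ∩ R)) \ L := by rw [sdiff_sdiff_left, sup_eq_union]
    have e2 : I j \ R' ∩ (I j ∩ R ∪ L) = I j ∩ R := by
      ext v
      have h1 := @hL v
      have h2 := @hR v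
      simp only [mem_inter, mem_sdiff, mem_union] at h1 h2 ⊢
      tauto
    refine Ev.step (j := j) ⟨fun v hv hv' => ?_, fun l hl hu => hj.2 l hl fun v hv hv' => ?_⟩
      (by rwa [e2]) ?_
    · have h1 : v ∉ R := fun h => hv' (mem_union_left _ (mem_inter.2 ⟨(mem_sdiff.1 hv).1, h⟩))
      rw [hπ v fun h => h1 (mem_sdiff.1 h).1]
      exact hj.1 v (mem_sdiff.1 hv).1 h1
    · rw [← hπ v fun h => hv' (mem_sdiff.1 h).1]
      refine hu v (mem_sdiff.2 ⟨hv, fun h => hv' (mem_sdiff.1 (hR h)).1⟩) fun h => hv' ?_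
      exact (mem_union.1 h).elim (fun h => (mem_inter.1 h).2) fun h => (mem_sdiff.1 (hL h)).1
    · rw [e2, union_sdiff_cancel_left hd]
      exact ih (e1 ▸ hR) (e1 ▸ hπ)

omit [Fintype ι] in
lemma exists_Pth (R : Finset ι) : ∃ L, Pth I a π R L ∧ ∀ y : ι → Bool,
    (∀ v, v ∉ R \ L → y v = π v) → ((∃ j, Unf I a ∅ j y) ↔ ∃ j, Unf I a ∅ j π) := by
  induction R using Finset.strongInduction with
  | H R ih =>
  by_cases h : ∃ j, Fu I a R j π
  · obtain ⟨j, hj⟩ := h
    rcases (I j ∩ R).eq_empty_or_nonempty with h0 | hne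
    · have hn : ∀ v ∈ I j, v ∉ R := fun v hv h => notMem_empty v (h0 ▸ mem_inter.2 ⟨hv, h⟩)
      exact ⟨∅, Pth.nil R, fun y hy => iff_of_true
        ⟨j, fun v hv _ => (hy v (by simpa using hn v hv)).trans (hj.1 v hv (hn v hv))⟩
        ⟨j, fun v hv _ => hj.1 v hv (hn v hv)⟩⟩
    · obtain ⟨L, h1, h2⟩ := ih _ (sdiff_ssubset inter_subset_right hne)
      refine ⟨_, Pth.cons R L j hj hne h1, fun y hy => h2 y fun v hv => hy v ?_⟩
      rwa [sdiff_sdiff_left, sup_eq_union] at hv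
  · refine ⟨∅, Pth.nil R, fun y hy => iff_of_false ?_ ?_⟩
    · rintro ⟨j, hj⟩
      exact h (exists_Fu (i := j) fun v hv hv' =>
        (hy v (by simpa using hv')).symm.trans (hj v hv (notMem_empty v)))
    · rintro ⟨j, hj⟩
      exact h (exists_Fu (i := j) fun v hv _ => hj v hv (notMem_empty v))

end path

variable {A : Type} [Fintype A] {κ : A → Type} [∀ i, Fintype (κ i)] [∀ i, LinearOrder (κ i)]

/-- decoding of several rounds -/
inductive MDec (I : ∀ i, κ i → Finset ι) (a : ∀ i, κ i → ι → Bool) (l : ℕ) :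
    (ι → Bool) → Finset ι → (ι → Bool) → Prop
  | base (y : ι → Bool) : MDec I a l y ∅ y
  | step (i : A) (y π y' x : ι → Bool) (L₁ L : Finset ι) : Dec (I i) (a i) y L₁ π → l < L₁.card →
      (∀ v, v ∉ L₁ → y' v = π v) → Disjoint L₁ L → MDec I a l y' L x → MDec I a l y (L₁ ∪ L) x

variable {I : ∀ i, κ i → Finset ι} {a : ∀ i, κ i → ι → Bool} {l w : ℕ}

open Classical in
lemma card_agree (L : Finset ι) (π : ι → Bool) :
    ∑ y : ι → Bool, (if ∀ v, v ∉ L → y v = π v then (1 : ℝ) else 0) = 2 ^ L.card := by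
  have : ∀ y : ι → Bool, (if ∀ v, v ∉ L → y v = π v then (1 : ℝ) else 0) =
      ∏ v, if v ∉ L → y v = π v then 1 else 0 := fun y => by
    rw [prod_boole]; simp
  simp only [this]
  rw [sum_prod_cube fun v b => if v ∉ L → b = π v then (1 : ℝ) else 0, ← prod_const,
    ← univ_inter L, ← prod_ite_mem, univ_inter]
  refine prod_congr rfl fun v _ => ?_
  by_cases hv : v ∈ L <;> cases π v <;> simp [hv] <;> norm_num

open Classical in
lemma long_sum {κ : Type} [Fintype κ] [LinearOrder κ] {I : κ → Finset ι} {a : κ → ι → Bool}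
    (hw : ∀ j, (I j).card ≤ w) {t : ℝ} (ht : 0 ≤ t) (h1 : 16 * w * t ≤ 1) (y : ι → Bool) :
    ∑ q : Finset ι × (ι → Bool), (if Dec I a y q.1 q.2 ∧ l < q.1.card then t ^ q.1.card else 0) ≤
      1 / 3 * (1 / 4) ^ l := by
  rw [← sum_filter, ← sum_fiberwise_of_maps_to
    (t := Ico (l + 1) (Fintype.card ι + 1)) (g := fun q : Finset ι × (ι → Bool) => q.1.card)
    fun q hq => mem_Ico.2 ⟨(mem_filter.1 hq).2.2, Nat.lt_succ_of_le (card_le_univ _)⟩]
  have e2 : ∑ k ∈ Ico (l + 1) (Fintype.card ι + 1), (1 / 4 : ℝ) ^ k ≤ 1 / 3 * (1 / 4) ^ l :=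
    (geom_sum_Ico_le_of_lt_one (by norm_num) (by norm_num)).trans (le_of_eq (by ring))
  refine le_trans (sum_le_sum fun k _ => ?_) e2
  rw [sum_congr rfl fun q hq => by rw [(mem_filter.1 hq).2], sum_const, nsmul_eq_mul]
  calc _ ≤ (4 * w) ^ k * t ^ k := by
        refine mul_le_mul_of_nonneg_right (le_trans ?_ (Dec.card_le (a := a) hw k y))
          (by positivity)
        rw [← Set.ncard_coe_finset, Nat.cast_le]
        refine Set.ncard_le_ncard fun q hq => ?_
        simp only [coe_filter, mem_filter, mem_univ, true_and, Set.mem_ofPred_eq] at hq ⊢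
        exact ⟨hq.2, hq.1.1⟩
    _ ≤ _ := by
        rw [← mul_pow]
        exact pow_le_pow_left₀ (by positivity) (by linarith) k

open Classical in
lemma MDec.sum_le (hw : ∀ i j, (I i j).card ≤ w) (hN : Fintype.card A ≤ 4 ^ l) {t : ℝ} (ht : 0 ≤ t)
    (h1 : 32 * w * t ≤ 1) (y : ι → Bool) :
    ∑ L : Finset ι, ∑ x, (if MDec I a l y L x then t ^ L.card else 0) ≤ 2 := by
  let F : (ι → Bool) → (ι → Bool) → Finset ι → ℝ := fun y x L =>
    if MDec I a l y L x then t ^ L.card else 0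
  have hF : ∀ y x L, 0 ≤ F y x L := fun y x L => by simp only [F]; split_ifs <;> positivity
  obtain ⟨y₀, -, hy₀⟩ := exists_max_image univ (fun y => ∑ L, ∑ x, F y x L) univ_nonempty
  obtain ⟨c, hc⟩ : ∃ c, c = ∑ L, ∑ x, F y₀ x L := ⟨_, rfl⟩
  have c0 : 0 ≤ c := hc ▸ sum_nonneg fun _ _ => sum_nonneg fun _ _ => hF _ _ _
  let G : A → Finset ι × (ι → Bool) → (ι → Bool) → ℝ := fun i q y' =>
    (if Dec (I i) (a i) y₀ q.1 q.2 ∧ l < q.1.card then t ^ q.1.card else 0) *
      if ∀ v, v ∉ q.1 → y' v = q.2 v then 1 else 0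
  have hG : ∀ i q y', 0 ≤ G i q y' := fun i q y' => by simp only [G]; split_ifs <;> positivity
  have e1 : ∀ L x, F y₀ x L ≤ (if L = ∅ then if x = y₀ then 1 else 0 else 0) +
      ∑ i, ∑ q, ∑ y', G i q y' * if q.1 ⊆ L then F y' x (L \ q.1) else 0 := fun L x => by
    have hn : ∀ i (q : Finset ι × (ι → Bool)) y',
        0 ≤ G i q y' * if q.1 ⊆ L then F y' x (L \ q.1) else 0 := fun i q y' =>
      mul_nonneg (hG _ _ _) (by split_ifs <;> simp [hF])
    have hs := sum_nonneg fun i (_ : i ∈ univ) => sum_nonneg fun q (_ : q ∈ univ) =>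
      sum_nonneg fun y' (_ : y' ∈ univ) => hn i q y'
    by_cases h : MDec I a l y₀ L x
    swap
    · simp only [F, if_neg h] at hs ⊢
      exact add_nonneg (by split_ifs <;> simp) hs
    cases h with
    | base => simp only [F, if_pos (MDec.base y₀), card_empty, pow_zero, if_true] at hs ⊢; linarith
    | step i _ π y' _ L₁ L hD hl hy hd hM =>
      refine le_add_of_nonneg_of_le (by split_ifs <;> simp) ?_
      refine le_trans ?_ (single_le_sum (fun i _ => sum_nonneg fun q _ =>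
        sum_nonneg fun y' _ => hn i q y') (mem_univ i))
      refine le_trans ?_ (single_le_sum (fun q _ => sum_nonneg fun y' _ => hn i q y')
        (mem_univ (L₁, π)))
      refine le_trans (le_of_eq ?_) (single_le_sum (fun y' _ => hn i (L₁, π) y') (mem_univ y'))
      simp only [F, G]
      rw [if_pos (MDec.step i y₀ π y' x L₁ L hD hl hy hd hM), if_pos ⟨hD, hl⟩, if_pos hy,
        if_pos subset_union_left, union_sdiff_cancel_left hd, if_pos hM,
        card_union_of_disjoint hd, pow_add, mul_one]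
  have e2 : ∀ (L₁ : Finset ι) y', ∑ L, ∑ x, (if L₁ ⊆ L then F y' x (L \ L₁) else 0) ≤ c :=
    fun L₁ y' => by
      refine le_trans ?_ ((hy₀ y' (mem_univ _)).trans hc.ge)
      rw [sum_comm]
      conv_rhs => rw [sum_comm]
      refine sum_le_sum fun x _ => ?_
      rw [← sum_filter]
      refine sum_inj_le _ _ (· \ L₁) ?_ (fun _ _ => mem_univ _) (F y' x) (hF y' x)
      intro R hR R' hR' h
      simp only [coe_filter, mem_univ, true_and, Set.mem_ofPred_eq] at hR hR'
      rw [← union_sdiff_of_subset hR, ← union_sdiff_of_subset hR']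
      exact congrArg (L₁ ∪ ·) h
  have e3 : ∀ i, ∑ q, ∑ y', G i q y' ≤ 1 / 3 * (1 / 4) ^ l := fun i => by
    refine le_trans (le_of_eq (sum_congr rfl fun q _ => ?_))
      (long_sum (a := a i) (t := 2 * t) (hw i) (by positivity) (by linarith) y₀)
    simp only [G, ← mul_sum, card_agree]
    split_ifs
    · rw [mul_pow, mul_comm]
    · rw [zero_mul]
  have e4 : ∑ i, ∑ q, ∑ y', G i q y' ≤ 1 / 3 := by
    refine (sum_le_sum fun i _ => e3 i).trans ?_
    have : (Fintype.card A : ℝ) ≤ 4 ^ l := by exact_mod_cast hN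
    rw [sum_const, card_univ, nsmul_eq_mul, one_div_pow, mul_left_comm, mul_one_div]
    exact mul_le_of_le_one_right (by norm_num) ((div_le_one (by positivity)).2 this)
  have e5 : c ≤ 1 + (∑ i, ∑ q, ∑ y', G i q y') * c := by
    refine hc.trans_le ((sum_le_sum fun L _ => sum_le_sum fun x _ => e1 L x).trans ?_)
    simp only [sum_add_distrib]
    refine add_le_add (by simp) ?_
    simp only [sum_mul]
    rw [sum_congr rfl fun L _ => sum_comm, sum_comm]
    refine sum_le_sum fun i _ => ?_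
    rw [sum_congr rfl fun L _ => sum_comm, sum_comm]
    refine sum_le_sum fun q _ => ?_
    rw [sum_congr rfl fun L _ => sum_comm, sum_comm]
    refine sum_le_sum fun y' _ => ?_
    simp only [← mul_sum]
    exact mul_le_mul_of_nonneg_left (e2 _ _) (hG _ _ _)
  have := (hy₀ y (mem_univ _)).trans hc.ge
  nlinarith [mul_le_mul_of_nonneg_right e4 c0]

open Classical in
variable (I a l) in
/-- the weight of a sequence of rounds which reads `L` and leaves `R` free -/
noncomputable def mw (R L : Finset ι) (x : ι → Bool) : ℝ :=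
  if ∃ y, (∀ v, v ∉ L → y v = x v) ∧ MDec (fun i j => I i j \ R) a l y L x then 3 ^ L.card else 0

omit [Fintype A] [∀ i, Fintype (κ i)] in
lemma mw_nonneg (R L : Finset ι) (x : ι → Bool) : 0 ≤ mw I a l R L x := by
  unfold mw; split_ifs <;> positivity

omit [Fintype A] [∀ i, Fintype (κ i)] in
lemma mw_step {R L₁ : Finset ι} {i : A} {π z : ι → Bool} (hP : Pth (I i) (a i) π R L₁)
    (hl : l < L₁.card) (hz : ∀ v, v ∉ R → π v = z v) :
    3 ^ L₁.card * ∑ L ∈ (R \ L₁).powerset, mw I a l ((R \ L₁) \ L) L z ≤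
      ∑ L ∈ R.powerset, mw I a l (R \ L) L z := by
  refine le_trans ?_ (sum_inj_le (R \ L₁).powerset _ (fun L => L₁ ∪ L) ?_
    (fun L hL => ?_) _ fun L => mw_nonneg _ _ _)
  · rw [mul_sum]
    refine sum_le_sum fun L hL => ?_
    have hL' := mem_powerset.1 hL
    have hd : Disjoint L₁ L := disjoint_sdiff.mono_right hL'
    rw [sdiff_sdiff_left, sup_eq_union, mw]
    split_ifs with h
    · obtain ⟨y', h1, h2⟩ := h
      obtain ⟨y, h3, h4⟩ := hP.ev (R' := R \ (L₁ ∪ L)) (π' := mg L₁ π y')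
        (sdiff_subset_sdiff Subset.rfl subset_union_left) fun v hv => by
          unfold mg
          split_ifs with h
          · rfl
          · have h5 : v ∉ R := fun h' => hv (mem_sdiff.2 ⟨h', h⟩)
            rw [h1 v fun h' => h5 (mem_sdiff.1 (hL' h')).1, hz v h5]
      rw [mw, if_pos, card_union_of_disjoint hd, pow_add]
      refine ⟨y, fun v hv => ?_, MDec.step i y _ y' z L₁ L h4 hl (fun v hv => ?_) hd h2⟩
      · rw [mem_union, not_or] at hv
        rw [h3 v hv.1, mg, if_neg hv.1, h1 v hv.2]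
      · rw [mg, if_neg hv]
    · rw [mul_zero]; exact mw_nonneg _ _ _
  · intro L hL L' hL' h
    have h1 : Disjoint L₁ L := disjoint_sdiff.mono_right (mem_powerset.1 hL)
    have h2 : Disjoint L₁ L' := disjoint_sdiff.mono_right (mem_powerset.1 hL')
    rw [← union_sdiff_cancel_left h1, ← union_sdiff_cancel_left h2]
    exact congrArg (· \ L₁) h
  · exact mem_powerset.2 (union_subset hP.subset ((mem_powerset.1 hL).trans sdiff_subset))

omit [Fintype A] in
lemma multi_tree {M : ℝ} (hM : 0 ≤ M) (Ψ : Finset ι → (ι → Bool) → ℝ)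
    (hfix : ∀ R L x, L ⊆ R → Ψ R x ≤ 3 ^ L.card * Ex fun y => Ψ (R \ L) (mg L y x))
    (hgood : ∀ R x, (∀ i (π : ι → Bool), (∀ v, v ∉ R → π v = x v) → ∃ L : Finset ι, L.card ≤ l ∧
      ∀ y : ι → Bool, (∀ v, v ∉ R \ L → y v = π v) →
        ((∃ j, Unf (I i) (a i) ∅ j y) ↔ ∃ j, Unf (I i) (a i) ∅ j π)) → Ψ R x ≤ M)
    (R : Finset ι) (x : ι → Bool) :
    Ψ R x ≤ M * Ex fun y => ∑ L ∈ R.powerset, mw I a l (R \ L) L (mg R y x) := by
  induction R using Finset.strongInduction generalizing x with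
  | H R ih =>
  by_cases h : ∃ i π L, (∀ v, v ∉ R → π v = x v) ∧ Pth (I i) (a i) π R L ∧ l < L.card
  · obtain ⟨i, π, L₁, hπ, hP, hl⟩ := h
    have hss : R \ L₁ ⊂ R := sdiff_ssubset hP.subset (card_pos.1 (by omega))
    refine (hfix R L₁ x hP.subset).trans ((mul_le_mul_of_nonneg_left
      (Ex_mono fun y => ih _ hss (mg L₁ y x)) (by positivity)).trans ?_)
    rw [Ex_mul, mul_left_comm]
    refine mul_le_mul_of_nonneg_left ?_ hM
    have e : ∀ y y', mg (R \ L₁) y' (mg L₁ y x) = mg R (mg (R \ L₁) y' y) x := fun y y' => by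
      funext v
      by_cases h2 : v ∈ L₁
      · simp [mg, h2, hP.subset h2]
      · by_cases h1 : v ∈ R <;> simp [mg, h1, h2]
    simp only [e]
    rw [Ex_mg (R \ L₁) fun z => ∑ L ∈ (R \ L₁).powerset, mw I a l ((R \ L₁) \ L) L (mg R z x),
      ← Ex_mul]
    exact Ex_mono fun z => mw_step hP hl fun v hv => by rw [hπ v hv, mg, if_neg hv]
  · refine (hgood R x fun i π hπ => ?_).trans (le_mul_of_one_le_right hM ?_)
    · obtain ⟨L, h2, h3⟩ := exists_Pth (I := I i) (a := a i) (π := π) R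
      exact ⟨L, not_lt.1 fun hl => h ⟨i, π, L, hπ, h2, hl⟩, h3⟩
    · refine (Ex_const 1).symm.trans_le (Ex_mono fun y => ?_)
      refine le_trans (le_of_eq ?_) (single_le_sum (f := fun L => mw I a l (R \ L) L (mg R y x))
        (fun _ _ => mw_nonneg _ _ _) (empty_mem_powerset R))
      rw [mw, if_pos ⟨_, fun _ _ => rfl, MDec.base _⟩]
      simp

lemma mw_sum (hw : ∀ i j, (I i j).card ≤ w) (hN : Fintype.card A ≤ 4 ^ l) {p : ℝ} (hp : 0 ≤ p)
    (h1 : 192 * w * p ≤ 1) (R : Finset ι) :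
    ∑ L : Finset ι, (2 * p) ^ L.card * Ex (mw I a l R L) ≤ 2 := by
  classical
  have h2 := Ex_mono fun y => MDec.sum_le (I := fun i j => I i j \ R) (a := a) (t := 6 * p)
    (fun i j => (card_le_card sdiff_subset).trans (hw i j)) hN (by positivity) (by linarith) y
  rw [Ex_const, Ex_sum] at h2
  refine le_trans (sum_le_sum fun L _ => ?_) h2
  have e : ∀ F : (ι → Bool) → ℝ, Ex F = (1 / 2) ^ Fintype.card ι * ∑ x, F x := fun F => by
    simp only [Ex, unif, mul_sum]
  rw [← Ex_mul, e, e, sum_comm]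
  refine mul_le_mul_of_nonneg_left (sum_le_sum fun x _ => ?_) (by positivity)
  have hn : ∀ y, (0 : ℝ) ≤ if MDec (fun i j => I i j \ R) a l y L x then (6 * p) ^ L.card else 0 :=
    fun y => by split_ifs <;> positivity
  rw [mw]
  split_ifs with h
  · obtain ⟨y, -, hy⟩ := h
    refine le_trans (le_of_eq ?_) (single_le_sum (fun y _ => hn y) (mem_univ y))
    rw [if_pos hy, ← mul_pow]; ring
  · rw [mul_zero]; exact sum_nonneg fun y _ => hn y

theorem multi_terms (hw : ∀ i j, (I i j).card ≤ w) (hw1 : 1 ≤ w) (hN : Fintype.card A ≤ 4 ^ l)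
    {p M : ℝ} (hp : 0 ≤ p) (h1 : 192 * w * p ≤ 1) (hM : 0 ≤ M) (Ψ : Finset ι → (ι → Bool) → ℝ)
    (hfix : ∀ R L x, L ⊆ R → Ψ R x ≤ 3 ^ L.card * Ex fun y => Ψ (R \ L) (mg L y x))
    (hgood : ∀ R x, (∀ i (π : ι → Bool), (∀ v, v ∉ R → π v = x v) → ∃ L : Finset ι, L.card ≤ l ∧
      ∀ y : ι → Bool, (∀ v, v ∉ R \ L → y v = π v) →
        ((∃ j, Unf (I i) (a i) ∅ j y) ↔ ∃ j, Unf (I i) (a i) ∅ j π)) → Ψ R x ≤ M) :
    ∑ R, om p R * Ex (Ψ R) ≤ 2 * M := by
  have hw' : (1 : ℝ) ≤ w := by exact_mod_cast hw1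
  have hp2 : p ≤ 1 / 2 := by nlinarith
  have ho : ∀ R : Finset ι, 0 ≤ om p R := om_nonneg hp (by linarith)
  have e2 : ∀ R, om p R * Ex (Ψ R) ≤
      M * ∑ L ∈ R.powerset, om p (R \ L) * ((2 * p) ^ L.card * Ex (mw I a l (R \ L) L)) := fun R => by
    have h2 := Ex_mono (multi_tree hM Ψ hfix hgood R)
    rw [Ex_mul, Ex_mg R fun z => ∑ L ∈ R.powerset, mw I a l (R \ L) L z, Ex_sum] at h2
    refine (mul_le_mul_of_nonneg_left h2 (ho R)).trans ?_
    rw [mul_left_comm, mul_sum]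
    refine mul_le_mul_of_nonneg_left (sum_le_sum fun L hL => ?_) hM
    rw [← mul_assoc]
    exact mul_le_mul_of_nonneg_right (om_le hp hp2 R L (mem_powerset.1 hL))
      (Ex_nonneg fun _ => mw_nonneg _ _ _)
  have e4 := sum_split_le (fun R L => om p R * ((2 * p) ^ L.card * Ex (mw I a l R L))) fun R L =>
    mul_nonneg (ho R) (mul_nonneg (by positivity) (Ex_nonneg fun _ => mw_nonneg _ _ _))
  have e5 : ∑ R : Finset ι, ∑ L : Finset ι, om p R * ((2 * p) ^ L.card * Ex (mw I a l R L)) ≤ 2 := by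
    refine le_trans (sum_le_sum (g := fun R => om p R * 2) fun R _ => ?_)
      (le_of_eq (by rw [← sum_mul, sum_om, one_mul]))
    rw [← mul_sum]
    exact mul_le_mul_of_nonneg_left (mw_sum hw hN hp h1 R) (ho R)
  refine (sum_le_sum fun R _ => e2 R).trans ?_
  rw [← mul_sum, mul_comm 2 M]
  exact mul_le_mul_of_nonneg_left (e4.trans e5) hM

/-- the multi-switching lemma -/
theorem multi {F : A → Set (ι → Bool)} (hF : ∀ i, Width w (F i)) (hw1 : 1 ≤ w)
    (hN : Fintype.card A ≤ 4 ^ l) {p M : ℝ} (hp : 0 ≤ p) (h1 : 192 * w * p ≤ 1) (hM : 0 ≤ M)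
    (Ψ : Finset ι → (ι → Bool) → ℝ)
    (hfix : ∀ R L x, L ⊆ R → Ψ R x ≤ 3 ^ L.card * Ex fun y => Ψ (R \ L) (mg L y x))
    (hgood : ∀ R x, (∀ i (π : ι → Bool), ∃ L : Finset ι, L.card ≤ l ∧ ∀ y : ι → Bool,
      (∀ v ∈ L, y v = π v) → (mg R y x ∈ F i ↔ mg R π x ∈ F i)) → Ψ R x ≤ M) :
    ∑ R, om p R * Ex (Ψ R) ≤ 2 * M := by
  classical
  choose J hJ hJE using fun (i : A) (x : F i) => hF i x.1 x.2
  letI : ∀ i, Fintype (F i) := fun i => Fintype.ofFinite _
  letI : ∀ i, LinearOrder (F i) := fun i =>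
    LinearOrder.lift' (Fintype.equivFin (F i)) (Fintype.equivFin (F i)).injective
  have hEE : ∀ i y, y ∈ F i ↔ ∃ j : F i, Unf (J i) (fun j : F i => j.1) ∅ j y := fun i y =>
    ⟨fun hy => ⟨⟨y, hy⟩, fun _ _ _ => rfl⟩,
      fun ⟨j, hj⟩ => hJE i j y fun v hv => hj v hv (notMem_empty v)⟩
  refine multi_terms (κ := fun i => F i) (a := fun i j => j.1) hJ hw1 hN hp h1 hM Ψ hfix
    fun R x h => hgood R x fun i π => ?_
  obtain ⟨L, h2, h3⟩ := h i (mg R π x) fun v hv => if_neg hv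
  refine ⟨L, h2, fun y hy => ?_⟩
  rw [hEE, hEE]
  refine h3 _ fun v hv => ?_
  unfold mg
  split_ifs with h4
  · exact hy v (by_contra fun h5 => hv (mem_sdiff.2 ⟨h4, h5⟩))
  · rfl

end Pool.Agent.Lib.MP_ee7726_lc.SB
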