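import Mathlib

/-! Choice of the parameters. -/

namespace Pool.Agent.Lib.MP_ee7726_lc.SB

theorem numer {m d k K l : ℕ} {ε : ℝ} (hm : 2 ≤ m) (hd : 1 ≤ d) (h0 : 0 < ε) (h1 : ε ≤ 1)
    (hl1 : 1 ≤ l) (hl : (l : ℝ) ≤ 3 * Real.log m) (hK : 2 * K ≤ k) (hK' : k ≤ 2 * K + 1)
    (hk : 400000 * (400000 * Real.log m) ^ (d - 1) * (d * Real.log m + Real.log (1 / ε)) ≤ k) :
    (1 + 1 / (ε / 4)) * (((2 * m : ℝ) ^ 2) ^ (d + 1) *
      (2 ^ d / (1 + 1 / 192 * (1 / (192 * l)) ^ (d - 1)) ^ K)) ≤ ε / 4 ∧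
    (1 + 1 / (ε / 4)) * (((2 * m : ℝ) ^ 2) ^ (d + 1) * (1 / (400000 * Real.log m) ^ (d * k) *
      (2 ^ (d + 1) * (192 * (192 * l) ^ d) ^ K) ^ 2)) ≤ ε / 4 := by
  have hm' : (2 : ℝ) ≤ m := by exact_mod_cast hm
  have hd' : (1 : ℝ) ≤ d := by exact_mod_cast hd
  have hl' : (1 : ℝ) ≤ l := by exact_mod_cast hl1
  have l2 := Real.log_two_gt_d9
  have l3 := Real.log_two_lt_d9
  have a1 : Real.log 2 ≤ Real.log m := Real.log_le_log (by norm_num) hm'
  have hL : 0 ≤ Real.log (1 / ε) := Real.log_nonneg (one_le_one_div h0 h1)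
  obtain ⟨L, hLe⟩ : ∃ L, L = Real.log m := ⟨_, rfl⟩
  obtain ⟨Λ, hΛ⟩ : ∃ Λ, Λ = Real.log (1 / ε) := ⟨_, rfl⟩
  have eL : (m : ℝ) = Real.exp L := by rw [hLe, Real.exp_log (by linarith)]
  have eΛ : 1 / ε = Real.exp Λ := by rw [hΛ, Real.exp_log (by positivity)]
  have e2 : (2 : ℝ) ≤ Real.exp L := eL ▸ hm'
  rw [← hLe] at a1 hl hk ⊢
  rw [← hΛ] at hk hL
  obtain ⟨t, ht⟩ : ∃ t : ℝ, t = 1 / 192 * (1 / (192 * l)) ^ (d - 1) := ⟨_, rfl⟩
  have t0 : 0 < t := by rw [ht]; positivity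
  have t1 : t ≤ 1 := ht ▸ mul_le_one₀ (by norm_num) (by positivity)
    (pow_le_one₀ (by positivity) ((div_le_one (by positivity)).2 (by linarith)))
  have hdL : 1 / 2 ≤ d * L := by nlinarith
  have L0 : 0 < L := by linarith
  have t2 : 1 ≤ 192 * t * (400000 * L) ^ (d - 1) := by
    rw [ht, ← mul_assoc, show (192 : ℝ) * (1 / 192) = 1 by norm_num, one_mul, ← mul_pow]
    refine one_le_pow₀ ?_
    rw [one_div_mul_eq_div, le_div_iff₀ (by positivity)]
    linarith
  have k1 : (k : ℝ) ≤ 2 * K + 1 := by exact_mod_cast hK'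
  have t3 : 1000 * (d * L + Λ) ≤ t * K := by
    have b1 := mul_le_mul_of_nonneg_left (hk.trans k1) t0.le
    have b2 := mul_le_mul_of_nonneg_right t2 (by linarith : 0 ≤ d * L + Λ)
    nlinarith
  have t4 : t * K ≤ K := mul_le_of_le_one_left (Nat.cast_nonneg K) t1
  have b1 : Real.exp (t * K / 2) ≤ (1 + t) ^ K := by
    rw [show t * K / 2 = K * (t / 2) by ring, Real.exp_nat_mul]
    refine pow_le_pow_left₀ (Real.exp_pos _).le ((Real.exp_bound_div_one_sub_of_interval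
      (by linarith) (by linarith)).trans ?_) K
    rw [div_le_iff₀ (by linarith)]
    nlinarith
  have b2 : (1 + 1 / (ε / 4)) * (((2 * m : ℝ) ^ 2) ^ (d + 1) * 2 ^ d) ≤
      ε / 4 * Real.exp (t * K / 2) := by
    have c1 : 1 + 1 / (ε / 4) ≤ ε / 4 * (Real.exp L ^ 5 * Real.exp Λ ^ 2) := by
      have c2 := pow_le_pow_left₀ (by norm_num) e2 5
      rw [← eΛ, show ε / 4 * (Real.exp L ^ 5 * (1 / ε) ^ 2) = Real.exp L ^ 5 / (4 * ε) by
        field_simp, show 1 + 1 / (ε / 4) = (4 * ε + 16) / (4 * ε) by field_simp; ring]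
      exact div_le_div_of_nonneg_right (by linarith) (by positivity)
    have c3 : ((2 * m : ℝ) ^ 2) ^ (d + 1) * 2 ^ d ≤
        ((Real.exp L * Real.exp L) ^ 2) ^ (d + 1) * Real.exp L ^ d := by
      rw [eL]; gcongr
    refine (mul_le_mul c1 c3 (by positivity) (by positivity)).trans ?_
    rw [mul_assoc]
    refine mul_le_mul_of_nonneg_left ?_ (by positivity)
    simp only [← Real.exp_add, ← Real.exp_nat_mul]
    refine Real.exp_le_exp.2 ?_
    push_cast
    nlinarith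
  rw [← ht]
  constructor
  · rw [← mul_div_assoc, ← mul_div_assoc, div_le_iff₀ (by positivity)]
    exact b2.trans (mul_le_mul_of_nonneg_left b1 (by positivity))
  have b3 : Real.exp (t * K / 2) ≤ 2 ^ K :=
    b1.trans (pow_le_pow_left₀ (by linarith) (by linarith) K)
  have b4 : d + 1 ≤ K := by
    have : ((d + 1 : ℕ) : ℝ) ≤ K := by push_cast; nlinarith
    exact_mod_cast this
  have b5 : 2 ^ K * (2 ^ (d + 1) * (192 * (192 * l : ℝ) ^ d) ^ K) ^ 2 ≤ (400000 * L) ^ (d * k) := by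
    calc _ ≤ 2 ^ K * (2 ^ K * (192 * (576 * L) ^ d) ^ K) ^ 2 := by
          have c0 : (192 * l : ℝ) ≤ 576 * L := by linarith
          have c1 : (2 : ℝ) ^ (d + 1) ≤ 2 ^ K := pow_le_pow_right₀ one_le_two b4
          gcongr
      _ = (8 * 192 ^ 2 * ((576 * L) ^ d) ^ 2) ^ K := by
          generalize (576 * L) ^ d = y
          rw [← mul_pow, ← pow_mul, mul_comm K 2, pow_mul, ← mul_pow]
          congr 1
          ring
      _ ≤ (((400000 * L) ^ d) ^ 2) ^ K := by
          refine pow_le_pow_left₀ (by positivity) ?_ K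
          have c1 : (600 : ℝ) ≤ 600 ^ d := le_self_pow₀ (by norm_num) (by omega)
          have c2 : (600 * (576 * L)) ^ d ≤ (400000 * L) ^ d :=
            pow_le_pow_left₀ (by positivity) (by linarith) d
          have c3 : 600 * (576 * L) ^ d ≤ (400000 * L) ^ d := by
            rw [mul_pow] at c2
            exact (mul_le_mul_of_nonneg_right c1 (by positivity)).trans c2
          have c4 := pow_le_pow_left₀ (by positivity) c3 2
          nlinarith [sq_nonneg ((576 * L) ^ d)]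
      _ ≤ _ := by
          rw [← pow_mul, ← pow_mul]
          exact pow_le_pow_right₀ (by linarith) (Nat.mul_le_mul_left d hK)
  have b6 : (1 + 1 / (ε / 4)) * ((2 * m : ℝ) ^ 2) ^ (d + 1) ≤ ε / 4 * 2 ^ K := by
    refine le_trans (mul_le_mul_of_nonneg_left (le_mul_of_one_le_right (by positivity)
      (one_le_pow₀ one_le_two (n := d))) (by positivity)) (b2.trans ?_)
    exact mul_le_mul_of_nonneg_left b3 (by positivity)
  rw [← mul_assoc, one_div_mul_eq_div, ← mul_div_assoc, div_le_iff₀ (by positivity)]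
  refine (mul_le_mul_of_nonneg_right b6 (by positivity)).trans ?_
  rw [mul_assoc]
  exact mul_le_mul_of_nonneg_left b5 (by positivity)

end Pool.Agent.Lib.MP_ee7726_lc.SB
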