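import Pool.Agent.Lib.MP_ee7726_lc.AC.Tail

/-! The half-cube identity and the recursion through the gates. -/

namespace Pool.Agent.Lib.MP_ee7726_lc.SB

open Finset

variable {ι : Type} [Fintype ι] [DecidableEq ι]

/-- truncation to degree at most `K` -/
noncomputable def tr (K : ℕ) (h : (ι → Bool) → ℝ) (x : ι → Bool) : ℝ :=
  ∑ S : Finset ι, (if S.card ≤ K then hat h S else 0) * chi S x

lemma Biased.sq_le {p : (ι → Bool) → ℝ} {K : ℕ} {δ : ℝ} (hp : Biased p (2 * K) δ) (hδ : 0 ≤ δ)
    (c : Finset ι → ℝ) (hc : ∀ S, K < S.card → c S = 0) :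
    ∑ x, p x * (∑ S, c S * chi S x) ^ 2 ≤ ∑ S, c S ^ 2 + δ * (∑ S, |c S|) ^ 2 := by
  have h := (abs_le.1 (hp.sq hδ le_rfl (fun S => (c S : ℂ)) fun S hS => by simp [hc S hS])).2
  have e : ∀ x, ev (fun S => (c S : ℂ)) x = ((∑ S, c S * chi S x : ℝ) : ℂ) := fun x => by
    simp [ev]
  simp only [e, Complex.norm_real, Real.norm_eq_abs, sq_abs] at h
  linarith

lemma sum_pair (v : ι) (F : Finset ι → ℝ) :
    ∑ S, F S = ∑ S ∈ (univ.erase v).powerset, (F S + F (insert v S)) := by
  rw [sum_add_distrib, ← sum_powerset_insert (notMem_erase v univ), insert_erase (mem_univ v),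
    powerset_univ]

lemma tr_half (K : ℕ) {h : (ι → Bool) → ℝ} {v : ι} {b : Bool} (hh : ∀ x, x v = b → h x = 0)
    {x : ι → Bool} (hx : x v = b) :
    tr K h x = ∑ S : Finset ι, (if S.card = K ∧ v ∉ S then hat h S else 0) * chi S x := by
  rw [tr, sum_pair v, sum_pair v fun S => (if S.card = K ∧ v ∉ S then hat h S else 0) * chi S x]
  refine sum_congr rfl fun S hS => ?_
  have hv : v ∉ S := fun h => notMem_erase v univ (mem_powerset.1 hS h)
  have e1 : ∀ y, chi (insert v S) y = sg (y v) * chi S y := fun y => prod_insert hv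
  have e2 : hat h (insert v S) * sg b = -hat h S := by
    rw [hat, hat, sum_mul, ← sum_neg_distrib]
    refine sum_congr rfl fun y _ => ?_
    by_cases hy : y v = b
    · simp [hh y hy]
    · have : sg (y v) * sg b = -1 := by revert hy; cases y v <;> cases b <;> simp [sg]
      rw [e1]
      linear_combination (unif y * h y * chi S y) * this
  rw [e1, hx, card_insert_of_notMem hv]
  simp only [hv, mem_insert_self, not_true, not_false_iff, and_true, and_false, if_false]
  rcases lt_trichotomy S.card K with h1 | h1 | h1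
  · rw [if_pos h1.le, if_pos (by omega), if_neg h1.ne, ← mul_assoc, e2]; ring
  · rw [if_pos h1.le, if_neg (by omega), if_pos h1]
  · rw [if_neg (by omega), if_neg (by omega), if_neg h1.ne']

lemma tr_sum {α : Type} (K : ℕ) (s : Finset α) (h : α → (ι → Bool) → ℝ) (x : ι → Bool) :
    tr K (fun y => ∑ q ∈ s, h q y) x = ∑ q ∈ s, tr K (h q) x := by
  simp only [tr]
  rw [sum_comm]
  refine sum_congr rfl fun S _ => ?_
  rw [← sum_mul]
  split_ifs
  · simp only [hat_eq, sum_mul, Ex_sum]
  · simp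

lemma tr_one (K : ℕ) (x : ι → Bool) : tr K (fun _ => 1) x = 1 := by
  rw [tr, sum_eq_single ∅ (fun S _ hS => by simp [hat_const, hS]) (by simp)]
  simp [hat_const]

lemma first_false {α : Type} (Γ : Finset α) (r : α → ℕ) (hr : Function.Injective r) (P : α → Prop)
    [DecidablePred P] : (if ∀ q ∈ Γ, P q then (0 : ℝ) else 1) =
      ∑ q ∈ Γ, if ¬ P q ∧ ∀ q' ∈ Γ, r q' < r q → P q' then 1 else 0 := by
  split_ifs with h
  · exact (sum_eq_zero fun q hq => if_neg fun h' => h'.1 (h q hq)).symm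
  · simp only [not_forall] at h
    obtain ⟨q₁, h1, h2⟩ := h
    obtain ⟨q, hq, hm⟩ := exists_min_image (Γ.filter fun q => ¬ P q) r ⟨q₁, mem_filter.2 ⟨h1, h2⟩⟩
    rw [mem_filter] at hq
    rw [sum_eq_single_of_mem q hq.1 fun q' hq' hne => if_neg fun h => ?_, if_pos]
    · exact ⟨hq.2, fun q' hq' hl => by_contra fun h =>
        absurd (hm q' (mem_filter.2 ⟨hq', h⟩)) (not_le.2 hl)⟩
    · exact hq.2 (h.2 q hq.1 (lt_of_le_of_ne (hm q' (mem_filter.2 ⟨hq', h.1⟩))
        fun e => hne (hr e).symm))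

variable {V : Type} [Fintype V] [DecidableEq V]

/-- a layered circuit over the input bits -/
def Inp (lev : V → ℕ) (E : V → (ι → Bool) → Bool) : Prop :=
  ∀ v, (∃ i, lev v = 0 ∧ ∀ x, E v x = x i) ∨ ∃ (Γ : Finset (V × Bool)) (c : Bool),
    (∀ q ∈ Γ, lev q.1 < lev v) ∧ ∀ x, E v x = c ↔ ∀ q ∈ Γ, E q.1 x = q.2

variable {lev : V → ℕ} {E : V → (ι → Bool) → Bool} {p : (ι → Bool) → ℝ} {K d : ℕ} {δ τ : ℝ}

omit [Fintype ι] [DecidableEq ι] [Fintype V] [DecidableEq V] in
lemma Inp.circ (h : Inp lev E) : Circ 1 lev E := fun v =>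
  (h v).imp_left fun ⟨i, _, hi⟩ x => ⟨{i}, by simp, fun y hy => by rw [hi, hi, hy i (by simp)]⟩

theorem rec_bound (hp : Biased p (2 * K) δ) (hδ : 0 ≤ δ) (hC : Inp lev E) (hd : ∀ v, lev v ≤ d)
    (hd1 : 1 ≤ d) (hτ : ∀ Γ : Finset (V × Bool), (∀ q ∈ Γ, lev q.1 < d) →
      ∑ S : Finset ι, (if S.card = K then hat (ind E Γ) S else 0) ^ 2 +
        δ * (∑ S : Finset ι, |if S.card = K then hat (ind E Γ) S else 0|) ^ 2 ≤ τ)
    (n : ℕ) (v : V) (hv : lev v < n) (b : Bool) (Γ : Finset (V × Bool))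
    (hΓ : ∀ q ∈ Γ, lev q.1 < d) :
    ∑ x, p x * ((if E v x = b then 1 else 0) * tr K (ind E (insert (v, !b) Γ)) x ^ 2) ≤
      ((2 * Fintype.card V : ℝ) ^ 2) ^ n * τ := by
  have τ0 : 0 ≤ τ := le_trans (by positivity) (hτ ∅ (by simp))
  have hM : (1 : ℝ) ≤ 2 * Fintype.card V := by
    have : (1 : ℝ) ≤ Fintype.card V := by exact_mod_cast Fintype.card_pos_iff.2 ⟨v⟩
    linarith
  induction n generalizing v b Γ with
  | zero => omega
  | succ n ih =>
  have hcard : ∀ Γ₀ : Finset (V × Bool), (Γ₀.card : ℝ) ≤ 2 * Fintype.card V := fun Γ₀ => by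
    have := card_le_univ Γ₀
    rw [Fintype.card_prod, Fintype.card_bool, mul_comm] at this
    exact_mod_cast this
  have hB : 0 ≤ ((2 * Fintype.card V : ℝ) ^ 2) ^ n * τ := by positivity
  rcases hC v with ⟨i, h0, hi⟩ | ⟨Γ₀, c, h1, h2⟩
  · have h3 := hp.sq_le hδ (fun S => if S.card = K ∧ i ∉ S then hat (ind E (insert (v, !b) Γ)) S
      else 0) fun S hS => if_neg fun h => by omega
    have h4 : ∀ S : Finset ι, |if S.card = K ∧ i ∉ S then hat (ind E (insert (v, !b) Γ)) S else 0| ≤
        |if S.card = K then hat (ind E (insert (v, !b) Γ)) S else 0| := fun S => by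
      by_cases h5 : S.card = K <;> by_cases h6 : i ∈ S <;> simp [h5, h6]
    refine le_trans (sum_le_sum fun x _ => mul_le_mul_of_nonneg_left ?_ (hp.nonneg x))
      (h3.trans (le_trans (add_le_add (sum_le_sum fun S _ => sq_le_sq.2 (h4 S))
        (mul_le_mul_of_nonneg_left (pow_le_pow_left₀ (by positivity)
          (sum_le_sum fun S _ => h4 S) 2) hδ)) ((hτ _ fun q hq => ?_).trans
            (le_mul_of_one_le_left τ0 (one_le_pow₀ (one_le_pow₀ hM))))))
    · split_ifs with hx
      · rw [one_mul, tr_half K (h := ind E (insert (v, !b) Γ)) (v := i) (b := b)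
          (fun y hy => if_neg fun h => ?_) (hi x ▸ hx)]
        have := h _ (mem_insert_self _ _)
        rw [hi, hy] at this
        simp at this
      · rw [zero_mul]; positivity
    · rcases mem_insert.1 hq with rfl | hq
      · dsimp only; omega
      · exact hΓ q hq
  have hl : ∀ q ∈ Γ₀, lev q.1 < d := fun q hq => (h1 q hq).trans_le (hd v)
  have hn : ∀ q ∈ Γ₀, lev q.1 < n := fun q hq => by have := h1 q hq; omega
  rw [pow_succ', mul_assoc]
  by_cases hb : b = c
  · subst hb
    let r : V × Bool → ℕ := fun q => Fintype.equivFin _ q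
    have hr : Function.Injective r := Fin.val_injective.comp (Fintype.equivFin _).injective
    have e1 : ind E (insert (v, !b) Γ) = fun x => ∑ q ∈ Γ₀,
        ind E (insert (q.1, !q.2) (Γ ∪ Γ₀.filter fun q' => r q' < r q)) x := funext fun x => by
      have e2 := first_false Γ₀ r hr fun q => E q.1 x = q.2
      simp only [ind, forall_mem_insert, forall_mem_union, mem_filter, and_imp, ← h2,
        Bool.eq_not, ne_eq] at e2 ⊢
      by_cases h3 : ∀ q ∈ Γ, E q.1 x = q.2
      · simp only [eq_true h3, and_true, true_and, ite_not]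
        convert e2
      · simp only [eq_false h3, and_false, false_and, if_false, sum_const_zero]
    calc _ ≤ ∑ x, p x * (Γ₀.card * ∑ q ∈ Γ₀, (if E q.1 x = q.2 then 1 else 0) *
          tr K (ind E (insert (q.1, !q.2) (Γ ∪ Γ₀.filter fun q' => r q' < r q))) x ^ 2) := by
          refine sum_le_sum fun x _ => mul_le_mul_of_nonneg_left ?_ (hp.nonneg x)
          split_ifs with hx
          · rw [one_mul, e1, tr_sum]
            refine sq_sum_le_card_mul_sum_sq.trans (le_of_eq ?_)
            congr 1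
            exact sum_congr rfl fun q hq => by rw [if_pos ((h2 x).1 hx q hq), one_mul]
          · rw [zero_mul]
            exact mul_nonneg (by positivity) (sum_nonneg fun q _ => by split_ifs <;> positivity)
      _ ≤ Γ₀.card * ∑ _q ∈ Γ₀, ((2 * Fintype.card V : ℝ) ^ 2) ^ n * τ := by
          simp only [mul_left_comm _ (Γ₀.card : ℝ), ← mul_sum]
          refine mul_le_mul_of_nonneg_left ?_ (by positivity)
          simp only [mul_sum]
          rw [sum_comm]
          refine sum_le_sum fun q hq => ih q.1 (hn q hq) q.2 _ (fun q' hq' => ?_)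
          exact (mem_union.1 hq').elim (hΓ q') fun h => hl q' (mem_filter.1 h).1
      _ ≤ _ := by
          rw [sum_const, nsmul_eq_mul, ← mul_assoc, ← pow_two]
          exact mul_le_mul_of_nonneg_right (pow_le_pow_left₀ (by positivity) (hcard _) 2) hB
  · have hb' : (!b) = c := by revert hb; cases b <;> cases c <;> simp
    have e1 : ∀ q ∈ Γ₀, ind E (insert (v, !b) Γ) = ind E (insert (q.1, !!q.2) (Γ₀ ∪ Γ)) :=
      fun q hq => funext fun x => by
        simp only [ind, forall_mem_insert, forall_mem_union, hb', h2, Bool.not_not]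
        exact if_congr ⟨fun h => ⟨h.1 q hq, h⟩, fun h => h.2⟩ rfl rfl
    calc _ ≤ ∑ x, p x * ∑ q ∈ Γ₀, (if E q.1 x = !q.2 then 1 else 0) *
          tr K (ind E (insert (q.1, !!q.2) (Γ₀ ∪ Γ))) x ^ 2 := by
          refine sum_le_sum fun x _ => mul_le_mul_of_nonneg_left ?_ (hp.nonneg x)
          have hnn : ∀ q ∈ Γ₀, (0 : ℝ) ≤ (if E q.1 x = !q.2 then 1 else 0) *
              tr K (ind E (insert (q.1, !!q.2) (Γ₀ ∪ Γ))) x ^ 2 := fun q _ => by
            split_ifs <;> positivity
          split_ifs with hx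
          · have : ¬ ∀ q ∈ Γ₀, E q.1 x = q.2 := fun h => hb (hx.symm.trans ((h2 x).2 h))
            simp only [not_forall] at this
            obtain ⟨q, hq, h3⟩ := this
            refine le_trans (le_of_eq ?_) (single_le_sum hnn hq)
            rw [if_pos (Bool.eq_not.2 h3), e1 q hq]
          · rw [zero_mul]; exact sum_nonneg hnn
      _ ≤ ∑ _q ∈ Γ₀, ((2 * Fintype.card V : ℝ) ^ 2) ^ n * τ := by
          simp only [mul_sum]
          rw [sum_comm]
          exact sum_le_sum fun q hq => ih q.1 (hn q hq) (!q.2) _ fun q' hq' =>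
            (mem_union.1 hq').elim (hl q') (hΓ q')
      _ ≤ _ := by
          rw [sum_const, nsmul_eq_mul]
          exact mul_le_mul_of_nonneg_right ((hcard _).trans (by nlinarith)) hB

theorem upper_ac (hp : Biased p (2 * K) δ) (hδ : 0 ≤ δ) (hC : Inp lev E) (hd : ∀ v, lev v ≤ d)
    (hd1 : 1 ≤ d) {l : ℕ} (hl : 1 ≤ l) (hN : Fintype.card V ≤ 4 ^ l) {η : ℝ} (hη : 0 < η)
    (v : V) (b : Bool) :
    ∑ x, p x * (if E v x = b then 1 else 0) ≤
      (1 + η) * (∑ x, unif x * (if E v x = b then 1 else 0) +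
        δ * (2 ^ (d + 1) * (192 * (192 * l) ^ d) ^ K) ^ 2) +
      (1 + 1 / η) * (((2 * Fintype.card V : ℝ) ^ 2) ^ (d + 1) *
        (2 ^ d / (1 + 1 / 192 * (1 / (192 * l)) ^ (d - 1)) ^ K +
          δ * (2 ^ (d + 1) * (192 * (192 * l) ^ d) ^ K) ^ 2)) := by
  have hl' : (1 : ℝ) ≤ l := by exact_mod_cast hl
  have ht : (1 / 192 * (1 / (192 * l)) ^ d : ℝ) ≤ 1 :=
    mul_le_one₀ (by norm_num) (by positivity)
      (pow_le_one₀ (by positivity) ((div_le_one (by positivity)).2 (by linarith)))
  have L1 : ∀ Γ : Finset (V × Bool), ∑ S : Finset ι, |if S.card ≤ K then hat (ind E Γ) S else 0| ≤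
      2 ^ (d + 1) * (192 * (192 * l) ^ d) ^ K := fun Γ => by
    have h := pot_l1.depth hN d hC.circ le_rfl hl (Γ := Γ) fun q _ => hd q.1
    simp only [Nat.cast_one, mul_one] at h
    refine le_trans ?_ (mul_le_mul_of_nonneg_right h (by positivity))
    rw [sum_mul]
    refine sum_le_sum fun S _ => ?_
    split_ifs with hS
    · rw [mul_right_comm]
      refine le_mul_of_one_le_left (abs_nonneg _) (le_trans (le_of_eq ?_)
        (mul_le_mul_of_nonneg_right (pow_le_pow_of_le_one (by positivity) ht hS) (by positivity)))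
      rw [← mul_pow, one_div_pow, show (1 / 192 * (1 / (192 * l) ^ d) * (192 * (192 * l) ^ d) : ℝ) =
        1 by field_simp, one_pow]
    · rw [abs_zero]; positivity
  have h1 := rec_bound hp hδ hC hd hd1 (τ := 2 ^ d / (1 + 1 / 192 * (1 / (192 * l)) ^ (d - 1)) ^ K +
      δ * (2 ^ (d + 1) * (192 * (192 * l) ^ d) ^ K) ^ 2) (fun Γ hΓ => ?_) (d + 1) v
    (Nat.lt_succ_of_le (hd v)) b ∅ (by simp)
  swap
  · refine add_le_add ?_ (mul_le_mul_of_nonneg_left (pow_le_pow_left₀ (by positivity)
      (le_trans (sum_le_sum fun S _ => ?_) (L1 Γ)) 2) hδ)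
    · have h := pot_l2.depth hN (d - 1) hC.circ le_rfl hl (Γ := Γ) fun q hq => by
        have := hΓ q hq; omega
      simp only [Nat.cast_one, mul_one, Nat.sub_add_cancel hd1] at h
      rw [le_div_iff₀ (by positivity), sum_mul]
      refine le_trans (sum_le_sum fun S _ => ?_) h
      split_ifs with hS
      · rw [hS, mul_comm]
      · rw [zero_pow two_ne_zero, zero_mul]; positivity
    · split_ifs with h2 h3
      · exact le_rfl
      · exact absurd h2.le h3
      · simp
      · exact le_rfl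
  have h2 := hp.sq_le hδ (fun S => if S.card ≤ K then hat (ind E {(v, b)}) S else 0)
    fun S hS => if_neg (not_le.2 hS)
  have h3 : ∑ S : Finset ι, (if S.card ≤ K then hat (ind E {(v, b)}) S else 0) ^ 2 ≤
      ∑ x, unif x * (if E v x = b then 1 else 0) := by
    refine (sum_le_sum (g := fun S => hat (ind E {(v, b)}) S ^ 2) fun S _ => ?_).trans
      (le_of_eq ?_)
    · split_ifs <;> simp [sq_nonneg]
    · rw [parseval_real]
      exact sum_congr rfl fun x _ => by simp [ind]
  have h4 := h2.trans (add_le_add h3 (mul_le_mul_of_nonneg_left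
    (pow_le_pow_left₀ (by positivity) (L1 _) 2) hδ))
  refine le_trans ?_ (add_le_add (mul_le_mul_of_nonneg_left h4 (by positivity))
    (mul_le_mul_of_nonneg_left h1 (by positivity)))
  rw [mul_sum, mul_sum, ← sum_add_distrib]
  refine sum_le_sum fun x _ => ?_
  rw [mul_left_comm, mul_left_comm (1 + 1 / η), ← mul_add]
  refine mul_le_mul_of_nonneg_left ?_ (hp.nonneg x)
  split_ifs
  · have e := tr_sum K univ (fun c : Bool => ind E {(v, c)}) x
    rw [show (fun y => ∑ c : Bool, ind E {(v, c)} y) = fun _ => 1 from funext fun y => by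
      cases h : E v y <;> simp [ind, h], tr_one] at e
    have e2 : tr K (ind E {(v, b)}) x + tr K (ind E (insert (v, !b) ∅)) x = 1 := by
      rw [e]; cases b <;> simp [add_comm]
    change 1 ≤ (1 + η) * tr K (ind E {(v, b)}) x ^ 2 + _
    generalize tr K (ind E {(v, b)}) x = Z at e2 ⊢
    generalize tr K (ind E (insert (v, !b) ∅)) x = W at e2 ⊢
    have e3 : (1 + η) * Z ^ 2 + (1 + 1 / η) * (1 * W ^ 2) = (Z + W) ^ 2 + (η * Z - W) ^ 2 / η := by
      field_simp; ring
    rw [e3, e2, one_pow]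
    exact le_add_of_nonneg_right (by positivity)
  · positivity

end Pool.Agent.Lib.MP_ee7726_lc.SB
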