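import Pool.Agent.Lib.MP_ee7726_lc.AC.Multi

/-! Fourier tails and level norms of circuits of bounded depth. -/

namespace Pool.Agent.Lib.MP_ee7726_lc.SB

open Finset

variable {ι : Type} [Fintype ι] [DecidableEq ι]

/-- the restriction with free set `R` and values `x` off `R` -/
def res (R : Finset ι) (x : ι → Bool) (h : (ι → Bool) → ℝ) : (ι → Bool) → ℝ := fun y => h (mg R y x)

lemma hat_eq (f : (ι → Bool) → ℝ) (S : Finset ι) : hat f S = Ex fun x => f x * chi S x := rfl

lemma abs_hat_le (f : (ι → Bool) → ℝ) (S : Finset ι) : |hat f S| ≤ Ex fun x => |f x| :=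
  (abs_sum_le_sum_abs _ _).trans (le_of_eq (sum_congr rfl fun x _ => by
    rw [abs_mul, abs_mul, abs_chi, mul_one, abs_of_pos (unif_pos x)]))

lemma parseval_real (f : (ι → Bool) → ℝ) : ∑ S, hat f S ^ 2 = Ex fun x => f x ^ 2 := by
  have := parseval fun S => (hat f S : ℂ)
  simp only [ev_hat, Complex.norm_real, Real.norm_eq_abs, sq_abs] at this
  exact this.symm

lemma hat_res (h : (ι → Bool) → ℝ) (R S : Finset ι) :
    hat (fun x => hat (res R x h) (S ∩ R)) (S \ R) = hat h S := by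
  rw [hat_eq h, ← Ex_mg R, hat_eq]
  congr 1
  funext x
  rw [hat_eq, mul_comm, ← Ex_mul]
  congr 1
  funext y
  have e1 : chi (S ∩ R) y = chi (S ∩ R) (mg R y x) :=
    prod_congr rfl fun v hv => by rw [mg, if_pos (mem_inter.1 hv).2]
  have e2 : chi (S \ R) x = chi (S \ R) (mg R y x) :=
    prod_congr rfl fun v hv => by rw [mg, if_neg (mem_sdiff.1 hv).2]
  rw [e1, e2, res, chi, chi, chi, ← prod_inter_mul_prod_sdiff S R]
  ring

omit [Fintype ι] in
lemma split_inj (R : Finset ι) : Function.Injective fun S : Finset ι => (S ∩ R, S \ R) :=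
  fun S T h => by
    rw [Prod.mk.injEq] at h
    rw [← sdiff_union_inter S R, h.1, h.2, sdiff_union_inter]

lemma sum_om_pow (p t : ℝ) (S : Finset ι) :
    ∑ R : Finset ι, om p R * t ^ (S ∩ R).card = (1 - p + p * t) ^ S.card := by
  have : ∀ R : Finset ι, om p R * t ^ (S ∩ R).card =
      ∏ v, if v ∈ R then p * (if v ∈ S then t else 1) else 1 - p := fun R => by
    rw [om, ← prod_const, ← univ_inter (S ∩ R), ← prod_ite_mem, ← prod_mul_distrib]
    refine prod_congr rfl fun v _ => ?_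
    by_cases h1 : v ∈ R <;> by_cases h2 : v ∈ S <;> simp [h1, h2]
  simp only [this]
  rw [sum_prod_ite, ← prod_const, ← univ_inter S, ← prod_ite_mem, univ_inter]
  refine prod_congr rfl fun v _ => ?_
  split_ifs <;> ring

lemma sum_om_sub (p : ℝ) (S : Finset ι) :
    ∑ R : Finset ι, om p R * (if S ⊆ R then 1 else 0) = p ^ S.card := by
  have : ∀ R : Finset ι, om p R * (if S ⊆ R then 1 else 0) =
      ∏ v, if v ∈ R then p else (1 - p) * if v ∈ S then 0 else 1 := fun R => by
    split_ifs with h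
    · rw [mul_one]
      refine prod_congr rfl fun v _ => ?_
      by_cases h1 : v ∈ R
      · simp [h1]
      · simp [h1, mt (@h v) h1]
    · obtain ⟨v, h1, h2⟩ := not_subset.1 h
      rw [mul_zero, prod_eq_zero (mem_univ v) (by simp [h1, h2])]
  simp only [this]
  rw [sum_prod_ite, ← prod_const, ← univ_inter S, ← prod_ite_mem, univ_inter]
  refine prod_congr rfl fun v _ => ?_
  split_ifs <;> ring

/-- a family of functionals which behaves well under restrictions -/
structure Pot (Φ : ℝ → ((ι → Bool) → ℝ) → ℝ) : Prop where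
  fix : ∀ t h (L : Finset ι), 0 ≤ t → t ≤ 1 → Φ t h ≤ 3 ^ L.card * Ex fun y => Φ t (res Lᶜ y h)
  rest : ∀ p t h, 0 ≤ p → p ≤ 1 → 0 ≤ t →
    Φ (p * t) h ≤ ∑ R, om p R * Ex fun x => Φ t (res R x h)
  const : ∀ c : ℝ, |c| ≤ 1 → Φ 1 (fun _ => c) ≤ 1

lemma hat_const (c : ℝ) (S : Finset ι) : hat (fun _ => c) S = if S = ∅ then c else 0 := by
  split_ifs with h
  · subst h; simp only [hat_eq, chi_empty, mul_one, Ex_const]
  · simp only [hat, unif, ← mul_sum, sum_chi (nonempty_iff_ne_empty.2 h), mul_zero]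

lemma l2_res (t : ℝ) (ht : 0 ≤ t) (h : (ι → Bool) → ℝ) (R : Finset ι) :
    ∑ S, t ^ (S ∩ R).card * hat h S ^ 2 ≤ Ex fun x => ∑ S, t ^ S.card * hat (res R x h) S ^ 2 := by
  have := sum_inj_le univ univ _ (split_inj R).injOn (fun _ _ => mem_univ _)
    (fun q : Finset ι × Finset ι => t ^ q.1.card * hat (fun x => hat (res R x h) q.1) q.2 ^ 2)
    fun q => by positivity
  simp only [hat_res, Fintype.sum_prod_type, ← mul_sum, parseval_real] at this
  rw [Ex_sum]
  simpa only [Ex_mul] using this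

lemma pot_l2 : Pot fun t (h : (ι → Bool) → ℝ) => ∑ S, (1 + t) ^ S.card * hat h S ^ 2 where
  fix t h L h0 h1 := by
    refine le_trans ?_ (mul_le_mul_of_nonneg_left (l2_res (1 + t) (by linarith) h Lᶜ)
      (by positivity))
    rw [mul_sum]
    refine sum_le_sum fun S _ => ?_
    rw [← mul_assoc, ← card_sdiff_add_card_inter S Lᶜ, pow_add]
    refine mul_le_mul_of_nonneg_right (mul_le_mul_of_nonneg_right ?_ (by positivity)) (sq_nonneg _)
    exact (pow_le_pow_left₀ (by linarith) (by linarith) _).trans (pow_le_pow_right₀ (by norm_num)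
      (card_le_card fun v hv => by simpa using (mem_sdiff.1 hv).2))
  rest p t h p0 p1 h0 := by
    refine le_trans (le_of_eq ?_) (sum_le_sum fun R _ => mul_le_mul_of_nonneg_left
      (l2_res (1 + t) (by linarith) h R) (om_nonneg p0 p1 R))
    simp only [mul_sum]
    rw [sum_comm]
    refine sum_congr rfl fun S _ => ?_
    simp only [← mul_assoc, ← sum_mul, sum_om_pow]
    congr 2; ring
  const c hc := by
    rw [sum_eq_single ∅ (fun S _ hS => by simp [hat_const, hS]) (by simp)]
    simpa [hat_const] using (sq_le_one_iff_abs_le_one c).2 hc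

lemma pot_l1 : Pot fun t (h : (ι → Bool) → ℝ) => ∑ S, t ^ S.card * |hat h S| where
  fix t h L h0 h1 := by
    have e1 := sum_inj_le univ (univ ×ˢ L.powerset) _ (split_inj Lᶜ).injOn
      (fun S _ => mem_product.2 ⟨mem_univ _, mem_powerset.2 fun v hv => by
        simpa using (mem_sdiff.1 hv).2⟩)
      (fun q : Finset ι × Finset ι => t ^ q.1.card * Ex fun x => |hat (res Lᶜ x h) q.1|)
      fun q => mul_nonneg (by positivity) (Ex_nonneg fun _ => abs_nonneg _)
    simp only [sum_product, sum_const, card_powerset, nsmul_eq_mul, ← mul_sum] at e1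
    rw [Ex_sum]
    simp only [Ex_mul]
    refine le_trans (sum_le_sum fun S _ => ?_) (e1.trans (mul_le_mul_of_nonneg_right ?_
      (sum_nonneg fun S _ => mul_nonneg (by positivity) (Ex_nonneg fun _ => abs_nonneg _))))
    · rw [← hat_res h Lᶜ S]
      exact mul_le_mul (pow_le_pow_of_le_one h0 h1 (card_le_card inter_subset_left))
        (abs_hat_le _ _) (abs_nonneg _) (by positivity)
    · push_cast
      exact pow_le_pow_left₀ (by norm_num) (by norm_num) _
  rest p t h p0 p1 h0 := by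
    simp only [Ex_sum, Ex_mul, mul_sum]
    rw [sum_comm]
    refine sum_le_sum fun S _ => ?_
    rw [mul_pow, ← sum_om_sub, sum_mul, sum_mul]
    refine sum_le_sum fun R _ => ?_
    rw [mul_assoc, mul_assoc]
    refine mul_le_mul_of_nonneg_left ?_ (om_nonneg p0 p1 R)
    split_ifs with hS
    · rw [one_mul, ← hat_res h R S, inter_eq_left.2 hS]
      exact mul_le_mul_of_nonneg_left (abs_hat_le _ _) (by positivity)
    · rw [zero_mul]
      exact mul_nonneg (by positivity) (Ex_nonneg fun _ => abs_nonneg _)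
  const c hc := by
    rw [sum_eq_single ∅ (fun S _ hS => by simp [hat_const, hS]) (by simp)]
    simpa [hat_const] using hc

lemma Pot.stage {Φ : ℝ → ((ι → Bool) → ℝ) → ℝ} (hΦ : Pot Φ) {A : Type} [Fintype A]
    {F : A → Set (ι → Bool)} {w l : ℕ} (hF : ∀ i, Width w (F i)) (hw1 : 1 ≤ w)
    (hN : Fintype.card A ≤ 4 ^ l) {t M : ℝ} (h0 : 0 ≤ t) (h1 : t ≤ 1) (hM : 0 ≤ M)
    (h : (ι → Bool) → ℝ)
    (hgood : ∀ R x, (∀ i (π : ι → Bool), ∃ L : Finset ι, L.card ≤ l ∧ ∀ y : ι → Bool,
      (∀ v ∈ L, y v = π v) → (mg R y x ∈ F i ↔ mg R π x ∈ F i)) → Φ t (res R x h) ≤ M) :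
    Φ (1 / (192 * w) * t) h ≤ 2 * M := by
  have hw' : (1 : ℝ) ≤ w := by exact_mod_cast hw1
  refine (hΦ.rest _ t h (by positivity) ((div_le_one (by positivity)).2 (by linarith)) h0).trans
    (multi hF hw1 hN (by positivity) (le_of_eq (by field_simp)) hM (fun R x => Φ t (res R x h))
      (fun R L x hL => (hΦ.fix t _ L h0 h1).trans (le_of_eq ?_)) hgood)
  congr 2
  funext y
  congr 1
  funext z
  simp only [res]
  congr 1
  funext v
  by_cases h2 : v ∈ L
  · simp [mg, h2, hL h2]
  · by_cases h1 : v ∈ R <;> simp [mg, h1, h2]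

/-- certificates of size at most `w` at every point -/
def W2 (w : ℕ) (g : (ι → Bool) → Bool) : Prop :=
  ∀ x, ∃ I : Finset ι, I.card ≤ w ∧ ∀ y : ι → Bool, (∀ v ∈ I, y v = x v) → g y = g x

variable {V : Type}

/-- a layered circuit over functions with small certificates -/
def Circ (w : ℕ) (lev : V → ℕ) (E : V → (ι → Bool) → Bool) : Prop :=
  ∀ v, W2 w (E v) ∨ ∃ (Γ : Finset (V × Bool)) (c : Bool), (∀ q ∈ Γ, lev q.1 < lev v) ∧
    ∀ x, E v x = c ↔ ∀ q ∈ Γ, E q.1 x = q.2

/-- the indicator of a conjunction of signed nodes -/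
def ind (E : V → (ι → Bool) → Bool) (Γ : Finset (V × Bool)) (x : ι → Bool) : ℝ :=
  if ∀ q ∈ Γ, E q.1 x = q.2 then 1 else 0

variable {w : ℕ} {lev : V → ℕ} {E : V → (ι → Bool) → Bool}

omit [Fintype ι] [DecidableEq ι] in
lemma Circ.zero (h : Circ w lev E) {v : V} (hv : lev v ≤ 0) : W2 w (E v) := by
  rcases h v with h | ⟨Γ, c, h1, h2⟩
  · exact h
  · have : ∀ x, E v x = c := fun x => (h2 x).2 fun q hq => absurd (h1 q hq) (by omega)
    exact fun x => ⟨∅, by simp, fun y _ => by rw [this, this]⟩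

omit [Fintype ι] [DecidableEq ι] in
lemma width_or {Γ : Finset (V × Bool)} (h : ∀ q ∈ Γ, W2 w (E q.1)) :
    Width w {x | ¬ ∀ q ∈ Γ, E q.1 x = q.2} := fun x hx => by
  simp only [Set.mem_ofPred_eq, not_forall] at hx ⊢
  obtain ⟨q, hq, hx⟩ := hx
  obtain ⟨J, h1, h2⟩ := h q hq x
  exact ⟨J, h1, fun y hy => ⟨q, hq, by rwa [h2 y hy]⟩⟩

theorem Pot.depth [Fintype V] {Φ : ℝ → ((ι → Bool) → ℝ) → ℝ} (hΦ : Pot Φ) {l : ℕ}
    (hN : Fintype.card V ≤ 4 ^ l) (s : ℕ) (h : Circ w lev E) (hw1 : 1 ≤ w) (hwl : w ≤ l)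
    {Γ : Finset (V × Bool)} (hΓ : ∀ q ∈ Γ, lev q.1 ≤ s) :
    Φ (1 / (192 * w) * (1 / (192 * l)) ^ s) (ind E Γ) ≤ 2 ^ (s + 1) := by
  induction s generalizing w lev E with
  | zero =>
    have := hΦ.stage (A := Unit) (l := 0) (fun _ => width_or fun q hq => h.zero (hΓ q hq)) hw1
      (by simp) zero_le_one le_rfl zero_le_one (ind E Γ) fun R x hg => by
        obtain ⟨L, h1, h2⟩ := hg () x
        obtain rfl := card_eq_zero.1 (Nat.le_zero.1 h1)
        have e : res R x (ind E Γ) = fun _ => ind E Γ (mg R x x) := funext fun y => by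
          simp only [res, ind, not_iff_not.1 (h2 y (by simp))]
        rw [e]
        exact hΦ.const _ (by unfold ind; split_ifs <;> simp)
    simpa using this
  | succ s ih =>
    have hl' : (1 : ℝ) ≤ l := by exact_mod_cast hw1.trans hwl
    have hex : ∀ v, ∃ F : Set (ι → Bool), Width w F ∧
        (lev v ≤ 1 → ∃ c, ∀ x, x ∈ F ↔ E v x = c) := fun v => by
      by_cases hv : lev v ≤ 1
      swap
      · exact ⟨∅, fun x hx => hx.elim, fun h => absurd h hv⟩
      rcases h v with h1 | ⟨Γ, c, h1, h2⟩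
      · refine ⟨{x | E v x = true}, fun x hx => ?_, fun _ => ⟨true, fun _ => Iff.rfl⟩⟩
        obtain ⟨J, h2, h3⟩ := h1 x
        exact ⟨J, h2, fun y hy => (h3 y hy).trans hx⟩
      · refine ⟨_, width_or fun q hq => h.zero (by have := h1 q hq; omega),
          fun _ => ⟨!c, fun x => ?_⟩⟩
        rw [Set.mem_ofPred_eq, ← h2]
        cases E v x <;> cases c <;> simp
    choose F hF hFE using hex
    have ht : (1 / (192 * l) : ℝ) ≤ 1 := (div_le_one (by positivity)).2 (by linarith)
    rw [pow_succ' (2 : ℝ)]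
    refine hΦ.stage hF hw1 hN (by positivity) (pow_le_one₀ (by positivity) ht) (by positivity) _
      fun R x hg => ?_
    rw [pow_succ']
    refine ih (lev := fun v => lev v - 1) (E := fun v y => E v (mg R y x)) (fun v => ?_)
      (hw1.trans hwl) le_rfl fun q hq => by have := hΓ q hq; omega
    by_cases hv : lev v ≤ 1
    · obtain ⟨c, hc⟩ := hFE v hv
      refine Or.inl fun π => ?_
      obtain ⟨L, h1, h2⟩ := hg v π
      refine ⟨L, h1, fun y hy => ?_⟩
      have := h2 y hy
      rw [hc, hc] at this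
      beta_reduce
      revert this
      cases E v (mg R y x) <;> cases E v (mg R π x) <;> cases c <;> simp
    · rcases h v with h1 | ⟨Γ, c, h1, h2⟩
      · refine Or.inl fun π => ?_
        obtain ⟨J, h2, h3⟩ := h1 (mg R π x)
        refine ⟨J, h2.trans hwl, fun y hy => h3 _ fun v hv => ?_⟩
        unfold mg
        split_ifs
        · exact hy v hv
        · rfl
      · exact Or.inr ⟨Γ, c, fun q hq => by have := h1 q hq; beta_reduce; omega, fun y => h2 _⟩

end Pool.Agent.Lib.MP_ee7726_lc.SB
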